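import Pool.Agent.Lib.MP_4aeabb_an.H8Inf

/-!
If the unit of a strongly self-absorbing C*-algebra has finite order in `K₀`, then the algebra
contains a unital copy of the Cuntz algebra `O_2`.
-/

namespace Pool.Agent.Results.MP_4aeabb_an.TorsionUnit

open Filter Pool.Agent.Lib.MP_4aeabb_an

universe u

theorem result {D : Type u} [CStarAlgebra D] (hD : IsSSA D) (h : UnitTorsion D) : HasO2 D := by
  rcases subsingleton_or_nontrivial D with _ | _
  · exact ⟨0, 0, Subsingleton.elim _ _, Subsingleton.elim _ _, Subsingleton.elim _ _⟩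
  obtain ⟨-, h0, T, _, ι₁, ι₂, ht, φ, v, hv⟩ := hD
  let ψ : T →⋆ₐ[ℂ] D := φ.symm
  have h1 : ∀ x, ‖ψ x‖ = ‖x‖ := StarAlgEquiv.norm_map φ.symm
  have h2 : ∀ (n : ℕ) (a b : Fin n → D),
      ∑ i, ψ.comp ι₁ (a i) * ψ.comp ι₂ (b i) = ψ (∑ i, ι₁ (a i) * ι₂ (b i)) := by simp
  have h3 : IsMinTensor (ψ.comp ι₁) (ψ.comp ι₂) := ⟨fun a b => Commute.map (ht.comm a b) ψ, by
    refine (φ.symm.surjective.denseRange.dense_image (StarAlgEquiv.isometry φ.symm).continuous
      ht.dense).mono ?_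
    rintro _ ⟨_, ⟨n, a, b, rfl⟩, rfl⟩
    exact ⟨n, a, b, (h2 n a b).symm⟩, fun n a b => by rw [h2, h1]; exact ht.norm_eq n a b⟩
  let S : SSA D := ⟨ψ.comp ι₁, ψ.comp ι₂, h3.comm, h3.dense, fun n a b => by
    rw [Finset.sum_congr rfl fun i _ => (h3.comm _ _).symm]
    refine (h3.norm_eq n b a).mono (h3.norm_eq n a b) ?_
    rintro _ ⟨π, ρ, rfl⟩
    refine ⟨ρ, π, ?_⟩
    rw [tensorNorm, tensorNorm, sumNorm, sumNorm,
      ← ContinuousLinearMap.opNorm_comp_linearIsometryEquiv _ (TensorProduct.commIsometry ℂ ρ.H π.H),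
      ← ContinuousLinearMap.opNorm_linearIsometryEquiv_comp (TensorProduct.commIsometry ℂ ρ.H π.H),
      ContinuousLinearMap.finsetSum_comp, ContinuousLinearMap.comp_finsetSum]
    exact congrArg _ (Finset.sum_congr rfl fun i _ => TensorProduct.mapL_comp_commIsometry _ _),
    fun γ n a b => (h3.norm_eq n a _).mono (h3.norm_eq n a b) (by
      rintro _ ⟨π, ρ, rfl⟩
      exact ⟨π, ⟨ρ.H, ρ.hom.comp γ⟩, rfl⟩),
    AU.of atTop (fun n => ⟨ψ (star (v n : T)), Unitary.map_mem ψ (star (v n)).2⟩) (by simp) hv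
      fun d n => by
        rw [← h1, dist_eq_norm]
        simp [cj_apply, ψ, map_star]⟩
  obtain ⟨a, b, ha, hb, hab⟩ := zero_div h0
  obtain ⟨k, n, w, hn, h4, h5⟩ := id h
  obtain ⟨w⟩ := S.two (fun _ => simple S h3) ha hb hab hn ⟨w, _, h5⟩
  exact S.final w h

end Pool.Agent.Results.MP_4aeabb_an.TorsionUnit
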